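import Pool.Agent.helper15.LC.Spec

open Finset Filter Topology

namespace CO

open CU

theorem ENE_KT_nonneg {d n : ℕ} [NeZero n] (b : ℝ) (hb : 0 ≤ b) (x y : Site d n) :
    0 ≤ KT b (fun _ => 0) x y := by
  unfold KT
  have : 0 ≤ ∑ i : Fin d, (if y = x + ev i then (1 : ℝ) else 0) := by
    apply Finset.sum_nonneg
    intro i _
    split_ifs <;> norm_num
  have h2 := mul_nonneg hb this
  simpa using h2

theorem ENE_Box_mono {d n : ℕ} [NeZero n] (L l : ℕ) (h : L ≤ l) (v : Site d n) :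
    Box L v ⊆ Box l v := by
  intro x hx
  unfold Box at *
  rw [Finset.mem_filter] at *
  refine ⟨hx.1, ?_⟩
  unfold Near at *
  intro k
  exact le_trans (hx.2 k) h

theorem ENE (hEPL : EPL_stmt) (hJEN : JEN_stmt) (hCUB : CUB_stmt) (hGKW : GKW_stmt)
    (hGK2 : GK2_stmt) : ENE_stmt := by
  intro d b κ hd hb hκ
  obtain ⟨L, δ, hL, hδ, hδb, hev⟩ := hEPL d b (κ / 4) (κ / 4) hd hb (by positivity) (by positivity)
  set l : ℕ := max L (⌈16 * d * b / (κ * δ)⌉₊ + 1) with hl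
  refine ⟨l, ?_⟩
  have hlL : L ≤ l := le_max_left _ _
  have hl1 : 1 ≤ l := le_trans hL hlL
  have hlpos : (0 : ℝ) < l := by exact_mod_cast (show 0 < l by omega)
  have hlc : 16 * d * b / (κ * δ) ≤ (l : ℝ) := by
    have h1 : 16 * d * b / (κ * δ) ≤ (⌈16 * d * b / (κ * δ)⌉₊ : ℝ) := Nat.le_ceil _
    have h2' : ⌈16 * (d : ℝ) * b / (κ * δ)⌉₊ + 1 ≤ l := le_max_right _ _
    have h2 : ((⌈16 * (d : ℝ) * b / (κ * δ)⌉₊ + 1 : ℕ) : ℝ) ≤ (l : ℝ) := Nat.cast_le.mpr h2'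
    rw [Nat.cast_add, Nat.cast_one] at h2
    linarith
  have hkey : 4 * d * b / l ≤ δ * (κ / 4) := by
    rw [div_le_iff₀ hlpos]
    rw [div_le_iff₀ (by positivity)] at hlc
    nlinarith [hlc]
  have hev2 : ∀ᶠ n : ℕ in atTop, l ≤ n + 3 := by
    filter_upwards [eventually_ge_atTop l] with n hn
    omega
  filter_upwards [hev, hev2] with n h1 h2
  have hN : (0 : ℝ) < (Fintype.card (Site d (n + 3)) : ℝ) := by
    have : 0 < Fintype.card (Site d (n + 3)) := Fintype.card_pos_iff.mpr ⟨0⟩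
    exact_mod_cast this
  have hJ := hJEN d (n + 3) b δ (κ / 4 * δ) hδ.le hδb (by positivity)
  have hC := hCUB d (n + 3) l b δ hd (by omega) hl1 h2 hδ.le hδb
  have hJC := le_trans hJ hC
  have h3 := le_of_mul_le_mul_left hJC hN
  have hKn : ∀ x y : Site d (n + 3), 0 ≤ KT (b - δ) (fun _ => 0) x y :=
    fun x y => ENE_KT_nonneg _ (by linarith) x y
  have hmT : mT d (n + 3) (b - δ) (κ / 4 * δ) ≤ 1 := by
    have := (hGK2 (Site d (n + 3)) (KT (b - δ) fun _ => 0) (fun _ => κ / 4 * δ) hKn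
      (fun _ => by positivity)).2.1 0
    exact this.2
  have hup : uP d (n + 3) b l ≤ uP d (n + 3) b L := by
    unfold uP
    apply Finset.sum_le_sum
    intro i _
    have hK : ∀ x y : Site d (n + 3), 0 ≤ KT b (fun _ => 0) x y :=
      fun x y => ENE_KT_nonneg _ hb.le x y
    have hsub : (univ \ Box l (0 : Site d (n + 3))) ⊆ (univ \ Box L (0 : Site d (n + 3))) :=
      Finset.sdiff_subset_sdiff (le_refl _) (ENE_Box_mono L l hlL 0)
    exact (hGKW (Site d (n + 3)) (KT b fun _ => 0) (KT b fun _ => 0) (fun _ => 0) (fun _ => 0)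
      hK (fun _ => le_refl _) (fun _ _ => le_refl _) (fun _ => le_refl _) _ _ hsub 0 (ev i)).2.1
  set S := ∑ i : Fin d, cT (d := d) (n := n + 3) (b - δ) (fun _ => 0) (κ / 4 * δ) (ev i) with hS
  have h4 : δ * S ≤ δ * (uF d (n + 3) b l + κ / 4 + κ / 4) := by
    have h5 : κ / 4 * δ * mT d (n + 3) (b - δ) (κ / 4 * δ) ≤ κ / 4 * δ * 1 :=
      mul_le_mul_of_nonneg_left hmT (by positivity)
    nlinarith [h3, hkey, h5]
  have h6 := le_of_mul_le_mul_left h4 hδ
  linarith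

end CO
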